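import Pool.Agent.Y251.LT.Stm

/-!
# LT-BC: the logarithm of the maximum modulus on vertical lines is convex (helper638)
-/

set_option autoImplicit false

open MeasureTheory Complex Metric Set Filter Topology
open scoped Real ComplexConjugate

namespace Pool.Agent.Y638.LT

open Pool.Agent.Y251.LT Complex.HadamardThreeLines

theorem periodic_line {g : ℂ → ℂ} {t₀ : ℝ} (h : Per g t₀) {t : ℝ} (ht : t₀ < t) :
    Function.Periodic (fun y : ℝ => g ((t : ℂ) + (y : ℂ) * I)) (2 * π) := by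
  intro y
  have h1 := h.per ((t : ℂ) + (y : ℂ) * I) (by simpa using ht)
  simp only
  rw [← h1]
  congr 1
  push_cast
  ring

theorem continuousOn_g {g : ℂ → ℂ} {t₀ : ℝ} (h : Per g t₀) :
    ContinuousOn g {ζ : ℂ | t₀ < ζ.re} := h.diff.continuousOn

/-- maxima on vertical lines -/
theorem exists_max {g : ℂ → ℂ} {t₀ : ℝ} (h : Per g t₀) {t : ℝ} (ht : t₀ < t) :
    ∃ y : ℝ, ∀ y' : ℝ, ‖g ((t : ℂ) + (y' : ℂ) * I)‖ ≤ ‖g ((t : ℂ) + (y : ℂ) * I)‖ := by
  have hc : ContinuousOn (fun y : ℝ => ‖g ((t : ℂ) + (y : ℂ) * I)‖) (Icc 0 (2 * π)) := by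
    refine ContinuousOn.norm ((continuousOn_g h).comp (by fun_prop) ?_)
    intro y _
    simpa using ht
  have hpi : (0 : ℝ) < 2 * π := by positivity
  obtain ⟨y, _, hmax⟩ := isCompact_Icc.exists_isMaxOn ⟨0, by constructor <;> linarith⟩ hc
  refine ⟨y, fun y' => ?_⟩
  obtain ⟨y₁, hy₁, he⟩ := (periodic_line h ht).exists_mem_Ico₀ hpi y'
  rw [he]
  exact hmax (Ico_subset_Icc_self hy₁)

/-- `g` is bounded on closed strips -/
theorem bdd_strip {g : ℂ → ℂ} {t₀ : ℝ} (h : Per g t₀) {a b : ℝ} (ha : t₀ < a) :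
    BddAbove ((norm ∘ g) '' verticalClosedStrip a b) := by
  have hpi : (0 : ℝ) < 2 * π := by positivity
  have hK : IsCompact (Icc a b ×ℂ Icc 0 (2 * π)) := isCompact_Icc.reProdIm isCompact_Icc
  have hc : ContinuousOn (norm ∘ g) (Icc a b ×ℂ Icc 0 (2 * π)) := by
    refine ContinuousOn.norm ((continuousOn_g h).mono ?_)
    intro z hz
    have := (mem_reProdIm.1 hz).1.1
    exact lt_of_lt_of_le ha this
  obtain ⟨R, hR⟩ := hK.bddAbove_image hc
  refine ⟨R, ?_⟩
  rintro _ ⟨z, hz, rfl⟩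
  have hz1 : z.re ∈ Icc a b := hz
  obtain ⟨y₁, hy₁, he⟩ := (periodic_line h (ha.trans_le hz1.1)).exists_mem_Ico₀ hpi z.im
  simp only [re_add_im] at he
  have h1 : (norm ∘ g) z = (norm ∘ g) ((z.re : ℂ) + (y₁ : ℂ) * I) := by
    simp only [Function.comp]
    rw [he]
  rw [h1]
  refine hR ⟨_, ?_, rfl⟩
  rw [mem_reProdIm]
  constructor
  · simpa using hz1
  · simpa using Ico_subset_Icc_self hy₁

/-- `g` does not vanish on a line -/
theorem exists_ne {g : ℂ → ℂ} {t₀ : ℝ} (h : Per g t₀) (hne : ∃ ζ : ℂ, t₀ < ζ.re ∧ g ζ ≠ 0)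
    {t : ℝ} (ht : t₀ < t) : ∃ y : ℝ, g ((t : ℂ) + (y : ℂ) * I) ≠ 0 := by
  by_contra hcon
  push Not at hcon
  have hopen : IsOpen {ζ : ℂ | t₀ < ζ.re} := isOpen_lt continuous_const continuous_re
  have hA : AnalyticOnNhd ℂ g {ζ : ℂ | t₀ < ζ.re} := h.diff.analyticOnNhd hopen
  have hpre : IsPreconnected {ζ : ℂ | t₀ < ζ.re} := (convex_halfSpace_re_gt t₀).isPreconnected
  have htend : Tendsto (fun y : ℝ => (t : ℂ) + (y : ℂ) * I) (𝓝[≠] 0) (𝓝[≠] (t : ℂ)) := by
    refine tendsto_nhdsWithin_of_tendsto_nhds_of_eventually_within _ ?_ ?_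
    · have hc : Continuous fun y : ℝ => (t : ℂ) + (y : ℂ) * I := by fun_prop
      have h1 := hc.tendsto 0
      simp only [ofReal_zero, zero_mul, add_zero] at h1
      exact h1.mono_left nhdsWithin_le_nhds
    · filter_upwards [self_mem_nhdsWithin] with y hy
      intro h1
      apply hy
      simpa using h1
  have hfr : ∃ᶠ z in 𝓝[≠] (t : ℂ), g z = 0 :=
    htend.frequently (Filter.Eventually.frequently (Filter.Eventually.of_forall hcon))
  have heq := hA.eqOn_zero_of_preconnected_of_frequently_eq_zero hpre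
    (show (t : ℂ) ∈ {ζ : ℂ | t₀ < ζ.re} by simpa using ht) hfr
  obtain ⟨ζ, h1, h2⟩ := hne
  exact h2 (heq h1)

theorem bc : S_BC := by
  intro g t₀ h hne
  have hmax : ∀ t : ℝ, ∃ y : ℝ, t₀ < t →
      ∀ y' : ℝ, ‖g ((t : ℂ) + (y' : ℂ) * I)‖ ≤ ‖g ((t : ℂ) + (y : ℂ) * I)‖ := by
    intro t
    by_cases ht : t₀ < t
    · obtain ⟨y, hy⟩ := exists_max h ht
      exact ⟨y, fun _ => hy⟩
    · exact ⟨0, fun h' => absurd h' ht⟩
  choose Y hY using hmax
  set m : ℝ → ℝ := fun t => ‖g ((t : ℂ) + (Y t : ℂ) * I)‖ with hm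
  have hpos : ∀ t, t₀ < t → 0 < m t := by
    intro t ht
    obtain ⟨y, hy⟩ := exists_ne h hne ht
    exact (norm_pos_iff.2 hy).trans_le (hY t ht y)
  have hle : ∀ ζ : ℂ, t₀ < ζ.re → ‖g ζ‖ ≤ m ζ.re := by
    intro ζ hζ
    have h1 := hY ζ.re hζ ζ.im
    rwa [re_add_im] at h1
  refine ⟨fun t => Real.log (m t), ?_, ?_, ?_⟩
  · refine LinearOrder.convexOn_of_lt (convex_Ioi t₀) ?_
    intro a ha b hb hab c d hc hd hcd
    have ha' : t₀ < a := ha
    have hb' : t₀ < b := hb
    simp only [smul_eq_mul]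
    set t := c * a + d * b with ht
    have hc1 : c = 1 - d := by linarith
    have hta : a < t := by rw [ht, hc1]; nlinarith
    have htb : t < b := by rw [ht, hc1]; nlinarith
    have hfrac : (t - a) / (b - a) = d := by
      rw [div_eq_iff (by linarith), ht, hc1]
      ring
    have hz : ((t : ℂ) + (Y t : ℂ) * I) ∈ verticalClosedStrip a b := by
      show ((t : ℂ) + (Y t : ℂ) * I).re ∈ Icc a b
      simpa using ⟨hta.le, htb.le⟩
    have hcl : closure (verticalStrip a b) ⊆ {ζ : ℂ | t₀ < ζ.re} := by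
      have h1 : closure (verticalStrip a b) ⊆ re ⁻¹' Icc a b :=
        closure_minimal (fun z hz => Ioo_subset_Icc_self hz) (isClosed_Icc.preimage continuous_re)
      intro z hz
      exact lt_of_lt_of_le ha' (h1 hz).1
    have h1 := norm_le_interp_of_mem_verticalClosedStrip' hab hz
      (h.diff.mono hcl).diffContOnCl (bdd_strip h ha') (a := m a) (b := m b)
      (fun z hz => by
        have hz' : z.re = a := hz
        have := hle z (by rw [hz']; exact ha')
        rwa [hz'] at this)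
      (fun z hz => by
        have hz' : z.re = b := hz
        have := hle z (by rw [hz']; exact hb')
        rwa [hz'] at this)
    have hre : ((t : ℂ) + (Y t : ℂ) * I).re = t := by simp
    rw [hre, hfrac] at h1
    have h2 : m t ≤ m a ^ (1 - d) * m b ^ d := h1
    have h3 := Real.log_le_log (hpos t (ha'.trans hta)) h2
    rw [Real.log_mul (Real.rpow_pos_of_pos (hpos a ha') _).ne'
      (Real.rpow_pos_of_pos (hpos b hb') _).ne', Real.log_rpow (hpos a ha'),
      Real.log_rpow (hpos b hb')] at h3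
    rw [hc1]
    exact h3
  · intro ζ hζ
    rw [Real.exp_log (hpos _ hζ)]
    exact hle ζ hζ
  · intro t ht
    exact ⟨Y t, (Real.exp_log (hpos t ht)).symm⟩

end Pool.Agent.Y638.LT
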